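import Pool.Agent.Helper69.VX.St
import Pool.Agent.Helper24.PV.M_PTW

/-!
# Project VX (MP_e12aa9_pr): module FIN
-/

set_option autoImplicit false

namespace Pool.Agent.Helper42.VX

open Finset Filter Pool.Agent.Helper82.CN Pool.Agent.Helper11.PV Pool.Agent.Helper69.VX

/-- the chromatic number is at most the number of vertices -/
lemma ch_le_card (n : ℕ) (ω : Sym2 (Fin n) → Bool) : ch (gr ω) ≤ n := by
  have h2 := ((gr ω).colorable_of_fintype).chromaticNumber_le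
  have h3 : (gr ω).chromaticNumber.toNat ≤ n := by
    have h4 := ENat.toNat_le_toNat h2 (by simp)
    simpa using h4
  unfold ch
  exact_mod_cast h3

lemma ch_nonneg (n : ℕ) (ω : Sym2 (Fin n) → Bool) : 0 ≤ ch (gr ω) := by
  unfold ch
  positivity

/-- the trivial bound of the variance -/
lemma vn_triv {p : ℝ} (h0 : 0 ≤ p) (h1 : p ≤ 1) (n : ℕ) : vn p n ≤ (n : ℝ) ^ 2 := by
  refine (Pool.Agent.Helper24.PV.vn_le p n 0).trans ?_
  have h2 : ∀ ω : Sym2 (Fin n) → Bool, (ch (gr ω) - 0) ^ 2 ≤ (n : ℝ) ^ 2 := by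
    intro ω
    rw [sub_zero]
    exact pow_le_pow_left₀ (ch_nonneg n ω) (ch_le_card n ω) 2
  refine (EE_mono h0 h1 h2).trans ?_
  rw [EE_const]

/-- `(log x)³ ≤ 216 √x` -/
lemma log_cube {x : ℝ} (hx : 1 ≤ x) : Real.log x ^ 3 ≤ 216 * √x := by
  have hx0 : 0 < x := by linarith
  have h1 : Real.log x ≤ 6 * x ^ ((1 : ℝ) / 6) := by
    have h2 : Real.log (x ^ ((1 : ℝ) / 6)) ≤ x ^ ((1 : ℝ) / 6) := by
      have h3 := Real.log_le_sub_one_of_pos (Real.rpow_pos_of_pos hx0 ((1 : ℝ) / 6))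
      linarith
    rw [Real.log_rpow hx0] at h2
    linarith
  have h0 : 0 ≤ Real.log x := Real.log_nonneg hx
  have h3 : Real.log x ^ 3 ≤ (6 * x ^ ((1 : ℝ) / 6)) ^ 3 := pow_le_pow_left₀ h0 h1 3
  have h4 : (6 * x ^ ((1 : ℝ) / 6)) ^ 3 = 216 * √x := by
    rw [mul_pow, Real.sqrt_eq_rpow, ← Real.rpow_natCast (x ^ ((1 : ℝ) / 6)) 3,
      ← Real.rpow_mul hx0.le]
    norm_num
  rwa [h4] at h3

theorem hFIN (hCMP : StCMP) (hFIV : StFIV) : StFIN := by
  intro p₀ p₁ hp0 hp01 hp1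
  obtain ⟨c, hc, n₁, hn₁⟩ := hCMP p₁ (hp0.trans hp01) hp1
  obtain ⟨C₁, hC₁, n₂, hn₂⟩ := hFIV p₀ p₁ hp0 hp01 hp1
  set N : ℕ := max (max n₁ n₂) 2 with hN
  have hN2 : (2 : ℝ) ≤ N := by exact_mod_cast le_max_right _ _
  have hNlog : 0 < Real.log N := Real.log_pos (by linarith)
  refine ⟨864 + 2 * C₁ / c ^ 2 + N * Real.log N ^ 3, by positivity, fun n p hn hp hpp => ?_⟩
  have hpos : 0 < p := lt_of_lt_of_le hp0 hp
  have hlt : p < 1 := lt_of_le_of_lt hpp hp1
  have hnR : (2 : ℝ) ≤ n := by exact_mod_cast hn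
  have hn0 : (0 : ℝ) < n := by linarith
  have hlog : 0 < Real.log n := Real.log_pos (by linarith)
  have hq : 0 < (n : ℝ) / Real.log n ^ 3 := by positivity
  have hA : 0 ≤ 864 + 2 * C₁ / c ^ 2 := by positivity
  have hB : 0 ≤ N * Real.log N ^ 3 := by positivity
  rcases le_or_gt N n with hNn | hNn
  · -- large n
    have hn1 : n₁ ≤ n := (le_max_left _ _).trans ((le_max_left _ _).trans hNn)
    have hn2 : n₂ ≤ n := (le_max_right _ _).trans ((le_max_left _ _).trans hNn)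
    obtain ⟨l, hl1, hcl, hcmp⟩ := hn₁ n hn1
    have hl : (0 : ℝ) < l := by exact_mod_cast hl1
    have hV := hn₂ n l p hn2 hp hpp
    have h1 : vn p n ≤ 2 * (EE p (fun ω : Sym2 (Fin n) → Bool =>
        ((l : ℝ) * ch (gr ω) - PH l ω) ^ 2) / (l : ℝ) ^ 2) +
        2 * (VV p (PH l : (Sym2 (Fin n) → Bool) → ℝ) / (l : ℝ) ^ 2) := by
      refine (Pool.Agent.Helper24.PV.vn_le p n
        (EE p (PH l : (Sym2 (Fin n) → Bool) → ℝ) / l)).trans ?_
      have h2 : ∀ ω : Sym2 (Fin n) → Bool,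
          (ch (gr ω) - EE p (PH l : (Sym2 (Fin n) → Bool) → ℝ) / l) ^ 2 ≤
          (2 / (l : ℝ) ^ 2) * ((l : ℝ) * ch (gr ω) - PH l ω) ^ 2 +
          (2 / (l : ℝ) ^ 2) * (PH l ω - EE p (PH l : (Sym2 (Fin n) → Bool) → ℝ)) ^ 2 := by
        intro ω
        set x := ch (gr ω)
        set f := PH l ω
        set m := EE p (PH l : (Sym2 (Fin n) → Bool) → ℝ)
        have h3 : x - m / l = (l * x - f) / l + (f - m) / l := by
          field_simp
          ring
        have h4 : (2 / (l : ℝ) ^ 2) * (l * x - f) ^ 2 = 2 * ((l * x - f) / l) ^ 2 := by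
          rw [div_pow]
          ring
        have h5 : (2 / (l : ℝ) ^ 2) * (f - m) ^ 2 = 2 * ((f - m) / l) ^ 2 := by
          rw [div_pow]
          ring
        rw [h3, h4, h5]
        nlinarith [sq_nonneg ((l * x - f) / l - (f - m) / l)]
      refine (EE_mono hpos.le hlt.le h2).trans ?_
      rw [EE_add, EE_mul_left, EE_mul_left]
      unfold VV
      apply le_of_eq
      ring
    have h2 : EE p (fun ω : Sym2 (Fin n) → Bool =>
        ((l : ℝ) * ch (gr ω) - PH l ω) ^ 2) / (l : ℝ) ^ 2 ≤ 2 * √(n : ℝ) := by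
      rw [div_le_iff₀ (by positivity)]
      have := hcmp p hpos.le hpp
      linarith
    have h3 : VV p (PH l : (Sym2 (Fin n) → Bool) → ℝ) / (l : ℝ) ^ 2 ≤
        C₁ / c ^ 2 * (n / Real.log n ^ 3) := by
      have h4 : c ^ 2 * Real.log n ^ 2 ≤ (l : ℝ) ^ 2 := by
        rw [← mul_pow]
        exact pow_le_pow_left₀ (by positivity) hcl 2
      calc VV p (PH l : (Sym2 (Fin n) → Bool) → ℝ) / (l : ℝ) ^ 2
          ≤ (C₁ * (n / Real.log n)) / (l : ℝ) ^ 2 :=
            div_le_div_of_nonneg_right hV (by positivity)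
        _ ≤ (C₁ * (n / Real.log n)) / (c ^ 2 * Real.log n ^ 2) :=
            div_le_div_of_nonneg_left (by positivity) (by positivity) h4
        _ = C₁ / c ^ 2 * (n / Real.log n ^ 3) := by
            field_simp
    have h4 : √(n : ℝ) ≤ 216 * (n / Real.log n ^ 3) := by
      rw [← mul_div_assoc, le_div_iff₀ (by positivity)]
      have h5 := log_cube (x := (n : ℝ)) (by linarith)
      have h6 : √(n : ℝ) * √(n : ℝ) = n := Real.mul_self_sqrt hn0.le
      have h7 : 0 ≤ √(n : ℝ) := Real.sqrt_nonneg _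
      calc √(n : ℝ) * Real.log n ^ 3 ≤ √(n : ℝ) * (216 * √(n : ℝ)) :=
            mul_le_mul_of_nonneg_left h5 h7
        _ = 216 * n := by rw [← h6]; ring_nf; rw [Real.sq_sqrt (by positivity)]
    have h5 : 2 * (C₁ / c ^ 2 * ((n : ℝ) / Real.log n ^ 3)) =
        2 * C₁ / c ^ 2 * (n / Real.log n ^ 3) := by ring
    have h6 : 0 ≤ N * Real.log N ^ 3 * (n / Real.log n ^ 3) := mul_nonneg hB hq.le
    have h7 : (864 + 2 * C₁ / c ^ 2 + N * Real.log N ^ 3) * ((n : ℝ) / Real.log n ^ 3) =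
        864 * (n / Real.log n ^ 3) + 2 * C₁ / c ^ 2 * (n / Real.log n ^ 3) +
        N * Real.log N ^ 3 * (n / Real.log n ^ 3) := by ring
    rw [h7]
    linarith
  · -- small n
    have h1 := vn_triv hpos.le hlt.le n
    have hNn' : (n : ℝ) ≤ N := by exact_mod_cast hNn.le
    have h2 : Real.log n ≤ Real.log N := Real.log_le_log hn0 hNn'
    have h3 : (n : ℝ) * Real.log n ^ 3 ≤ N * Real.log N ^ 3 :=
      mul_le_mul hNn' (pow_le_pow_left₀ hlog.le h2 3) (by positivity) (by positivity)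
    have h4 : (n : ℝ) ^ 2 = (n * Real.log n ^ 3) * (n / Real.log n ^ 3) := by
      field_simp
    calc vn p n ≤ (n : ℝ) ^ 2 := h1
      _ = (n * Real.log n ^ 3) * (n / Real.log n ^ 3) := h4
      _ ≤ (N * Real.log N ^ 3) * (n / Real.log n ^ 3) := mul_le_mul_of_nonneg_right h3 hq.le
      _ ≤ (864 + 2 * C₁ / c ^ 2 + N * Real.log N ^ 3) * (n / Real.log n ^ 3) := by
        refine mul_le_mul_of_nonneg_right ?_ hq.le
        linarith

end Pool.Agent.Helper42.VX
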